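import Pool.Agent.Y463.BS.Knot

/-!
# The value and the derivative of the normalised bracket of a knot at `A = 1`: the theorem
-/

set_option autoImplicit false

namespace Pool.Agent.Y463.BS

open Finset LaurentPolynomial Pool.Agent.H891R2.Jones Pool.Agent.H832R3.VJ
open Pool.Agent.H832R3.VJ.V7 (moment_term moment_C_mul)
open Pool.Agent.H953R3.Q2 (m_sum m_one T_mul0 T_mul1 mul0 mul1)

variable {P : Type}

theorem card_lp {r : P → P → Prop} {L : List (P × P)} (h : ∀ p q, r p q ↔ (p, q) ∈ L) :
    Nat.card (Quot r) = lp L := by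
  have hr : r = fun p q => (p, q) ∈ L := by
    funext p q
    exact propext (h p q)
  subst hr
  refine Nat.card_eq_of_bijective (Quot.lift (fun x => Quot.mk (E L) x) 
    (fun x y hxy => Quot.sound (E.of_mem hxy))) ⟨?_, ?_⟩
  · intro x y
    induction x using Quot.ind with
    | mk x =>
      induction y using Quot.ind with
      | mk y =>
        intro hxy
        exact Quot.eqvGen_sound (quot_E.1 hxy)
  · intro z
    induction z using Quot.ind with
    | mk x => exact ⟨Quot.mk _ x, rfl⟩

theorem joined_cons (A : List (P × P)) (x : Crossing P) (xs : List (Crossing P)) (b : Bool)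
    (s : Fin xs.length → Bool) (p q : P) :
    (⟨A, x :: xs⟩ : Diagram P).Joined (Fin.cons b s : Fin (xs.length + 1) → Bool) p q ↔
      (⟨(if b then (x.a, x.b) else (x.b, x.c)) :: (if b then (x.c, x.d) else (x.d, x.a)) :: A, xs⟩ :
        Diagram P).Joined s p q := by
  unfold Diagram.Joined
  constructor
  · rintro (h | ⟨i, h⟩)
    · left
      exact List.mem_cons_of_mem _ (List.mem_cons_of_mem _ h)
    · induction i using Fin.cases with
      | zero =>
        left
        change (if b = true then (p = x.a ∧ q = x.b) ∨ (p = x.c ∧ q = x.d) else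
          (p = x.b ∧ q = x.c) ∨ (p = x.d ∧ q = x.a)) at h
        cases b
        · rcases h with ⟨rfl, rfl⟩ | ⟨rfl, rfl⟩ <;> simp
        · rcases h with ⟨rfl, rfl⟩ | ⟨rfl, rfl⟩ <;> simp
      | succ i => exact Or.inr ⟨i, h⟩
  · rintro (h | ⟨i, h⟩)
    · rcases List.mem_cons.1 h with h | h
      · right
        refine ⟨(0 : Fin (xs.length + 1)), ?_⟩
        show (if b = true then (p = x.a ∧ q = x.b) ∨ (p = x.c ∧ q = x.d) else
          (p = x.b ∧ q = x.c) ∨ (p = x.d ∧ q = x.a))
        cases b <;> simp_all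
      · rcases List.mem_cons.1 h with h | h
        · right
          refine ⟨(0 : Fin (xs.length + 1)), ?_⟩
          show (if b = true then (p = x.a ∧ q = x.b) ∨ (p = x.c ∧ q = x.d) else
            (p = x.b ∧ q = x.c) ∨ (p = x.d ∧ q = x.a))
          cases b <;> simp_all
        · exact Or.inl h
    · exact Or.inr ⟨(i.succ : Fin (xs.length + 1)), h⟩

theorem loops_cons (A : List (P × P)) (x : Crossing P) (xs : List (Crossing P)) (b : Bool)
    (s : Fin xs.length → Bool) :
    (⟨A, x :: xs⟩ : Diagram P).loops (Fin.cons b s : Fin (xs.length + 1) → Bool) =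
      (⟨(if b then (x.a, x.b) else (x.b, x.c)) :: (if b then (x.c, x.d) else (x.d, x.a)) :: A, xs⟩ :
        Diagram P).loops s := by
  unfold Diagram.loops
  have : (⟨A, x :: xs⟩ : Diagram P).Joined (Fin.cons b s : Fin (xs.length + 1) → Bool) =
      (⟨(if b then (x.a, x.b) else (x.b, x.c)) :: (if b then (x.c, x.d) else (x.d, x.a)) :: A, xs⟩ :
        Diagram P).Joined s := by
    funext p q
    exact propext (joined_cons A x xs b s p q)
  rw [this]

theorem sum_cons {n : ℕ} (F : (Fin (n + 1) → Bool) → ℤ) : ∑ s, F s =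
    ∑ s : Fin n → Bool, F (Fin.cons true s) + ∑ s : Fin n → Bool, F (Fin.cons false s) := by
  rw [← (Fin.consEquiv (fun _ : Fin (n + 1) => Bool)).sum_comp, Fintype.sum_prod_type, Fintype.sum_bool]
  rfl

theorem weight_cons {n : ℕ} (b : Bool) (s : Fin n → Bool) :
    Diagram.weight (Fin.cons b s : Fin (n + 1) → Bool) = (if b then 1 else -1) + Diagram.weight s := by
  unfold Diagram.weight
  rw [Fin.sum_univ_succ]
  rfl

theorem sumW (xs : List (Crossing P)) : ∀ A : List (P × P),
    ∑ s : Fin xs.length → Bool, (-2 : ℤ) ^ ((⟨A, xs⟩ : Diagram P).loops s) = W A xs := by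
  induction xs with
  | nil =>
    intro A
    rw [W, v]
    refine (Fintype.sum_unique (ι := Fin 0 → Bool) _).trans ?_
    congr 1
    exact card_lp fun p q => by
      unfold Diagram.Joined
      constructor
      · rintro (h | ⟨i, _⟩)
        · exact h
        · exact (i : Fin 0).elim0
      · exact Or.inl
  | cons x xs ih =>
    intro A
    rw [W, ← ih, ← ih]
    refine (sum_cons _).trans ?_
    congr 1
    · exact Finset.sum_congr rfl fun s _ => by rw [loops_cons]; rfl
    · exact Finset.sum_congr rfl fun s _ => by rw [loops_cons]; rfl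

theorem sumW1 (xs : List (Crossing P)) : ∀ A : List (P × P),
    ∑ s : Fin xs.length → Bool, Diagram.weight s * (-2 : ℤ) ^ ((⟨A, xs⟩ : Diagram P).loops s) = 
      W1 A xs := by
  induction xs with
  | nil =>
    intro A
    rw [W1]
    refine (Fintype.sum_unique (ι := Fin 0 → Bool) _).trans ?_
    have : Diagram.weight (default : Fin 0 → Bool) = 0 := by simp [Diagram.weight]
    exact (congrArg (· * _) this).trans (zero_mul _)
  | cons x xs ih =>
    intro A
    rw [W1, ← ih, ← ih, ← sumW, ← sumW]
    refine (sum_cons _).trans ?_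
    have e1 : ∑ s : Fin xs.length → Bool, Diagram.weight (Fin.cons true s : Fin (xs.length + 1) → Bool) *
        (-2 : ℤ) ^ ((⟨A, x :: xs⟩ : Diagram P).loops (Fin.cons true s : Fin (xs.length + 1) → Bool)) =
        ∑ s : Fin xs.length → Bool, (-2 : ℤ) ^ ((⟨(x.a, x.b) :: (x.c, x.d) :: A, xs⟩ : Diagram P).loops s) + 
        ∑ s : Fin xs.length → Bool, Diagram.weight s * 
          (-2 : ℤ) ^ ((⟨(x.a, x.b) :: (x.c, x.d) :: A, xs⟩ : Diagram P).loops s) := by
      rw [← Finset.sum_add_distrib]
      refine Finset.sum_congr rfl fun s _ => ?_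
      rw [weight_cons, loops_cons]
      show (1 + Diagram.weight s) * 
        (-2 : ℤ) ^ ((⟨(x.a, x.b) :: (x.c, x.d) :: A, xs⟩ : Diagram P).loops s) = _
      ring
    have e2 : ∑ s : Fin xs.length → Bool, Diagram.weight (Fin.cons false s : Fin (xs.length + 1) → Bool) *
        (-2 : ℤ) ^ ((⟨A, x :: xs⟩ : Diagram P).loops (Fin.cons false s : Fin (xs.length + 1) → Bool)) =
        - ∑ s : Fin xs.length → Bool, (-2 : ℤ) ^ ((⟨(x.b, x.c) :: (x.d, x.a) :: A, xs⟩ : Diagram P).loops s) + 
        ∑ s : Fin xs.length → Bool, Diagram.weight s * 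
          (-2 : ℤ) ^ ((⟨(x.b, x.c) :: (x.d, x.a) :: A, xs⟩ : Diagram P).loops s) := by
      rw [← Finset.sum_neg_distrib, ← Finset.sum_add_distrib]
      refine Finset.sum_congr rfl fun s _ => ?_
      rw [weight_cons, loops_cons]
      show (-1 + Diagram.weight s) * 
        (-2 : ℤ) ^ ((⟨(x.b, x.c) :: (x.d, x.a) :: A, xs⟩ : Diagram P).loops s) = _
      ring
    refine (congrArg₂ (· + ·) e1 e2).trans ?_
    ring

/-! ### moments -/

theorem m_delta (j : ℕ) : moment 0 ((-T 2 - T (-2) : ℤ[T;T⁻¹]) ^ j) = (-2) ^ j ∧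
    moment 1 ((-T 2 - T (-2) : ℤ[T;T⁻¹]) ^ j) = 0 := by
  have hd : (-T 2 - T (-2) : ℤ[T;T⁻¹]) = C (-1) * T 2 + C (-1) * T (-2) := by
    rw [map_neg, map_one]; ring
  have h0 : moment 0 (-T 2 - T (-2) : ℤ[T;T⁻¹]) = -2 := by
    rw [hd, moment_add, moment_term, moment_term]; norm_num
  have h1 : moment 1 (-T 2 - T (-2) : ℤ[T;T⁻¹]) = 0 := by
    rw [hd, moment_add, moment_term, moment_term]; norm_num
  induction j with
  | zero =>
    rw [pow_zero, pow_zero, m_one, m_one]
    simp
  | succ j ih =>
    rw [pow_succ, mul0, mul1, ih.1, ih.2, h0, h1, pow_succ]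
    constructor <;> ring

theorem m_bracket [Finite P] [Nonempty P] (D : Diagram P) :
    -2 * moment 0 D.bracket = W D.arcs D.crossings ∧ 
      -2 * moment 1 D.bracket = W1 D.arcs D.crossings := by
  have hpos : ∀ s, 0 < D.loops s := by
    intro s
    unfold Diagram.loops
    have : Nonempty (Quot (D.Joined s)) := ⟨Quot.mk _ (Classical.arbitrary P)⟩
    exact Nat.card_pos
  have hp : ∀ s, (-2 : ℤ) * (-2) ^ (D.loops s - 1) = (-2) ^ D.loops s := by
    intro s
    have := hpos s
    rw [← pow_succ']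
    congr 1
    omega
  constructor
  · rw [← sumW]
    unfold Diagram.bracket
    rw [m_sum, Finset.mul_sum]
    refine Finset.sum_congr rfl fun s _ => ?_
    rw [T_mul0, (m_delta _).1, hp]
  · rw [← sumW1]
    unfold Diagram.bracket
    rw [m_sum, Finset.mul_sum]
    refine Finset.sum_congr rfl fun s _ => ?_
    rw [T_mul1, (m_delta _).1, (m_delta _).2, ← hp]
    ring

end Pool.Agent.Y463.BS
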