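import Pool.Agent.Y463.BS.Pair
import Pool.Agent.H953R3.Q2.Mom

/-!
# The value and the derivative of the normalised bracket of a knot at `A = 1`
-/

set_option autoImplicit false

namespace Pool.Agent.Y463.BS

open Finset LaurentPolynomial Pool.Agent.H891R2.Jones Pool.Agent.H832R3.VJ

variable {P : Type}

/-- corners of a crossing -/
def cor (x : Crossing P) : List P := [x.a, x.b, x.c, x.d]

/-- all points of arcs and crossings -/
def al (A : List (P × P)) (xs : List (Crossing P)) : List P := pts A ++ xs.flatMap cor

/-- the strands of the crossings -/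
def X (xs : List (Crossing P)) : List (P × P) := xs.flatMap (fun x => [(x.a, x.c), (x.b, x.d)])

noncomputable def W : List (P × P) → List (Crossing P) → ℤ
  | A, [] => v A
  | A, x :: xs => W ((x.a, x.b) :: (x.c, x.d) :: A) xs + W ((x.b, x.c) :: (x.d, x.a) :: A) xs

noncomputable def W1 : List (P × P) → List (Crossing P) → ℤ
  | _, [] => 0
  | A, x :: xs => W ((x.a, x.b) :: (x.c, x.d) :: A) xs - W ((x.b, x.c) :: (x.d, x.a) :: A) xs +
      (W1 ((x.a, x.b) :: (x.c, x.d) :: A) xs + W1 ((x.b, x.c) :: (x.d, x.a) :: A) xs)

noncomputable def S : List (P × P) → List (Crossing P) → ℤ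
  | _, [] => 0
  | A, x :: xs => v ((x.a, x.b) :: (x.c, x.d) :: (X xs ++ A)) -
      v ((x.b, x.c) :: (x.d, x.a) :: (X xs ++ A)) + S ((x.a, x.c) :: (x.b, x.d) :: A) xs

/-- all points occur twice (or not at all) -/
def Two [DecidableEq P] (l : List P) : Prop := ∀ p, l.count p = 0 ∨ l.count p = 2

theorem Two.congr [DecidableEq P] {l m : List P} (h : Two l) (e : ∀ p, m.count p = l.count p) : Two m := by
  intro p
  rw [e p]
  exact h p

theorem count_X [DecidableEq P] (xs : List (Crossing P)) (p : P) :
    (pts (X xs)).count p = (xs.flatMap cor).count p := by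
  induction xs with
  | nil => rfl
  | cons x xs ih =>
    simp only [X, pts, cor, List.flatMap_cons, List.map_append, List.count_append, List.map_cons,
      List.map_nil, List.count_cons, List.count_nil] at ih ⊢
    omega

theorem count_pts_append [DecidableEq P] (A B : List (P × P)) (p : P) :
    (pts (A ++ B)).count p = (pts A).count p + (pts B).count p := by
  simp only [pts, List.map_append, List.count_append]
  omega

theorem count_pts_cons [DecidableEq P] (a b : P) (A : List (P × P)) (p : P) :
    (pts ((a, b) :: A)).count p = (pts A).count p + [a, b].count p := by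
  simp only [pts, List.map_cons, List.count_append, List.count_cons, List.count_nil, List.cons_append]
  omega

theorem v_mem {L M : List (P × P)} (h : ∀ z, z ∈ L ↔ z ∈ M) : v L = v M := by
  unfold v
  rw [lp_mem h]

/-- Brauer relation for the rest -/
theorem br3 [Finite P] [DecidableEq P] (A : List (P × P)) (xs : List (Crossing P)) (a b c d : P)
    (h : Two (pts A ++ (xs.flatMap cor ++ [a, b, c, d]))) :
    v ((a, b) :: (c, d) :: (X xs ++ A)) + v ((b, c) :: (d, a) :: (X xs ++ A)) +
      v ((a, c) :: (b, d) :: (X xs ++ A)) = 0 := by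
  refine brauer (X xs ++ A) a b c d (pair _ _ rfl a b c d ?_)
  refine h.congr fun p => ?_
  rw [List.count_append, count_pts_append, count_X, List.count_append, List.count_append]
  omega

theorem W_eq [Finite P] [DecidableEq P] (xs : List (Crossing P)) : ∀ A : List (P × P), Two (al A xs) →
    W A xs = (-1) ^ xs.length * v (X xs ++ A) := by
  induction xs with
  | nil => intro A _; simp [W, X]
  | cons x xs ih =>
    intro A h
    have h1 := ih ((x.a, x.b) :: (x.c, x.d) :: A) (h.congr fun p => by
      simp only [al, List.flatMap_cons, List.count_append, count_pts_cons, cor, List.count_cons,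
        List.count_nil]
      omega)
    have h2 := ih ((x.b, x.c) :: (x.d, x.a) :: A) (h.congr fun p => by
      simp only [al, List.flatMap_cons, List.count_append, count_pts_cons, cor, List.count_cons,
        List.count_nil]
      omega)
    have h3 := br3 A xs x.a x.b x.c x.d (h.congr fun p => by
      simp only [al, List.flatMap_cons, List.count_append, cor]
      omega)
    have e1 : v (X xs ++ (x.a, x.b) :: (x.c, x.d) :: A) = v ((x.a, x.b) :: (x.c, x.d) :: (X xs ++ A)) :=
      v_mem fun z => by simp only [List.mem_append, List.mem_cons]; tauto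
    have e2 : v (X xs ++ (x.b, x.c) :: (x.d, x.a) :: A) = v ((x.b, x.c) :: (x.d, x.a) :: (X xs ++ A)) :=
      v_mem fun z => by simp only [List.mem_append, List.mem_cons]; tauto
    have e3 : v (X (x :: xs) ++ A) = v ((x.a, x.c) :: (x.b, x.d) :: (X xs ++ A)) := by
      simp only [X, List.flatMap_cons, List.cons_append, List.nil_append, List.append_assoc]
    rw [W, h1, h2, e1, e2, e3, List.length_cons, pow_succ]
    linear_combination (-1 : ℤ) ^ xs.length * h3

theorem S_mem : ∀ (xs : List (Crossing P)) (A B : List (P × P)), (∀ u, u ∈ A ↔ u ∈ B) →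
    S A xs = S B xs := by
  intro xs
  induction xs with
  | nil => intro A B _; rfl
  | cons x xs ih =>
    intro A B h
    rw [S, S, ih ((x.a, x.c) :: (x.b, x.d) :: A) ((x.a, x.c) :: (x.b, x.d) :: B) 
      (fun u => by simp only [List.mem_cons, h]),
      v_mem (L := (x.a, x.b) :: (x.c, x.d) :: (X xs ++ A)) 
        (M := (x.a, x.b) :: (x.c, x.d) :: (X xs ++ B)) (fun u => by
          simp only [List.mem_cons, List.mem_append, h]), 
      v_mem (L := (x.b, x.c) :: (x.d, x.a) :: (X xs ++ A)) 
        (M := (x.b, x.c) :: (x.d, x.a) :: (X xs ++ B)) (fun u => by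
          simp only [List.mem_cons, List.mem_append, h])]

theorem S_br [Finite P] [DecidableEq P] (xs : List (Crossing P)) : ∀ (A : List (P × P)) (a b c d : P),
    Two (pts A ++ (xs.flatMap cor ++ [a, b, c, d])) →
    S ((a, b) :: (c, d) :: A) xs + S ((b, c) :: (d, a) :: A) xs + S ((a, c) :: (b, d) :: A) xs = 0 := by
  induction xs with
  | nil => intro A a b c d _; simp [S]
  | cons x xs ih =>
    intro A a b c d h
    have hA := br3 ((x.a, x.b) :: (x.c, x.d) :: A) xs a b c d (h.congr fun p => by
      simp only [List.flatMap_cons, List.count_append, count_pts_cons, cor, List.count_cons,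
        List.count_nil]
      omega)
    have hB := br3 ((x.b, x.c) :: (x.d, x.a) :: A) xs a b c d (h.congr fun p => by
      simp only [List.flatMap_cons, List.count_append, count_pts_cons, cor, List.count_cons,
        List.count_nil]
      omega)
    have hX := ih ((x.a, x.c) :: (x.b, x.d) :: A) a b c d (h.congr fun p => by
      simp only [List.flatMap_cons, List.count_append, count_pts_cons, cor, List.count_cons,
        List.count_nil]
      omega)
    have sc : ∀ (y z y' z' : P × P), S (y :: z :: y' :: z' :: A) xs = S (y' :: z' :: y :: z :: A) xs := by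
      intro y z y' z'
      exact S_mem xs _ _ (fun u => by simp only [List.mem_cons]; tauto)
    have e : ∀ (y z y' z' : P × P), v (y :: z :: (X xs ++ y' :: z' :: A)) = 
        v (y' :: z' :: (X xs ++ y :: z :: A)) := fun y z y' z' => v_mem fun u => by
      simp only [List.mem_append, List.mem_cons]; tauto
    simp only [S]
    rw [sc (x.a, x.c) (x.b, x.d) (a, b) (c, d), sc (x.a, x.c) (x.b, x.d) (b, c) (d, a),
      sc (x.a, x.c) (x.b, x.d) (a, c) (b, d), 
      e (x.a, x.b) (x.c, x.d) (a, b) (c, d), e (x.a, x.b) (x.c, x.d) (b, c) (d, a),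
      e (x.a, x.b) (x.c, x.d) (a, c) (b, d), 
      e (x.b, x.c) (x.d, x.a) (a, b) (c, d), e (x.b, x.c) (x.d, x.a) (b, c) (d, a),
      e (x.b, x.c) (x.d, x.a) (a, c) (b, d)]
    linear_combination hA - hB + hX

theorem W1_eq [Finite P] [DecidableEq P] (xs : List (Crossing P)) : ∀ A : List (P × P), Two (al A xs) →
    W1 A xs = (-1) ^ (xs.length + 1) * S A xs := by
  induction xs with
  | nil => intro A _; simp [W1, S]
  | cons x xs ih =>
    intro A h
    have c1 : Two (al ((x.a, x.b) :: (x.c, x.d) :: A) xs) := h.congr fun p => by
      simp only [al, List.flatMap_cons, List.count_append, count_pts_cons, cor, List.count_cons,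
        List.count_nil]
      omega
    have c2 : Two (al ((x.b, x.c) :: (x.d, x.a) :: A) xs) := h.congr fun p => by
      simp only [al, List.flatMap_cons, List.count_append, count_pts_cons, cor, List.count_cons,
        List.count_nil]
      omega
    have h3 := S_br xs A x.a x.b x.c x.d (h.congr fun p => by
      simp only [al, List.flatMap_cons, List.count_append, cor]
      omega)
    have e1 : v (X xs ++ (x.a, x.b) :: (x.c, x.d) :: A) = v ((x.a, x.b) :: (x.c, x.d) :: (X xs ++ A)) :=
      v_mem fun z => by simp only [List.mem_append, List.mem_cons]; tauto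
    have e2 : v (X xs ++ (x.b, x.c) :: (x.d, x.a) :: A) = v ((x.b, x.c) :: (x.d, x.a) :: (X xs ++ A)) :=
      v_mem fun z => by simp only [List.mem_append, List.mem_cons]; tauto
    rw [W1, S, W_eq _ _ c1, W_eq _ _ c2, ih _ c1, ih _ c2, e1, e2, List.length_cons, pow_succ, pow_succ]
    linear_combination (-(-1 : ℤ) ^ xs.length) * h3

end Pool.Agent.Y463.BS
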