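import Pool.Agent.Y463.CD.Struct

/-!
# Jones polynomials of bounded span of links with bounded twist number
-/

set_option autoImplicit false

namespace Pool.Agent.Y463.BS

open Finset LaurentPolynomial Pool.Agent.H891R2.Jones Pool.Agent.H891R2.MT Pool.Agent.H891R2.SI T4b
open Pool.Agent.H891R2.ZO (IsPow)
open Pool.Agent.H832R3.TW (FSpanLE)
open Pool.Agent.Y463.CD

variable {k : ℕ}

/-- the state sum with the loop numbers `g` -/
noncomputable def br (c M : ℕ) (g : (Fin c → Bool) → Fin (M + 1)) : ℤ[T;T⁻¹] :=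
  ∑ s, T (Diagram.weight s) * (-T 2 - T (-2)) ^ (g s : ℕ)

theorem bracket_br {P : Type} (D : Diagram P) (c M : ℕ) (hc : D.crossings.length = c)
    (hM : ∀ s, D.loops s ≤ M + 1) : ∃ g : (Fin c → Bool) → Fin (M + 1), D.bracket = br c M g := by
  subst hc
  refine ⟨fun s => ⟨D.loops s - 1, by have := hM s; omega⟩, rfl⟩

theorem fill_eq (O O' : Sites k) (hk : 0 < k)
    (h : ∀ S, (O.state S).std.bracket = (O'.state S).std.bracket) (w : Fin k → ℤ) :
    (O.fill w).std.bracket = (O'.fill w).std.bracket := by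
  have e1 := Pool.Agent.H891R2.SI.S3 O hk w
  have e2 := Pool.Agent.H891R2.SI.S3 O' hk w
  have e3 : ∀ R : Finset (Fin k), Pool.Agent.H891R2.SI.Zp O R = Pool.Agent.H891R2.SI.Zp O' R := by
    intro R
    unfold Pool.Agent.H891R2.SI.Zp
    exact Finset.sum_congr rfl fun S _ => by rw [h S]
  have e4 : ∑ R : Finset (Fin k), ((-1) ^ (nS w R).natAbs * T (-4 * nS w R)) *
      Pool.Agent.H891R2.SI.Zp O R = ∑ R : Finset (Fin k),
        ((-1) ^ (nS w R).natAbs * T (-4 * nS w R)) * Pool.Agent.H891R2.SI.Zp O' R :=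
    Finset.sum_congr rfl fun R _ => by rw [e3 R]
  rw [e4, ← e2] at e1
  have h1 : (T (∑ e, w e) : ℤ[T;T⁻¹]) * T (- ∑ e, w e) = 1 := by
    rw [← T_add, add_neg_cancel, T_zero]
  have h2 : (T (- ∑ e, w e) : ℤ[T;T⁻¹]) ≠ 0 := by
    intro h0
    rw [h0, mul_zero] at h1
    exact zero_ne_one h1
  exact mul_left_cancel₀ (mul_ne_zero (pow_ne_zero _ delta_ne) h2) e1

/-- `O` is connected, has `c` crossings outside the sites and the loop numbers `L` -/
def HasType {c : ℕ} (L : Finset (Fin k) → (Fin c → Bool) → Fin (c + k + 1)) (O : Sites k) : Prop :=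
  O.Connected ∧ O.crossings.length = c ∧ ∀ S, (O.state S).std.bracket = br c (c + k) (L S)

theorem exists_type (O : Sites k) (hO : O.Connected) (c : ℕ) (hc : O.crossings.length = c) :
    ∃ L : Finset (Fin k) → (Fin c → Bool) → Fin (c + k + 1), HasType L O := by
  have h : ∀ S : Finset (Fin k), ∃ g : (Fin c → Bool) → Fin (c + k + 1),
      (O.state S).std.bracket = br c (c + k) g := by
    intro S
    refine bracket_br _ c (c + k) ?_ ?_
    · show (O.crossings.map _).length = c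
      rw [List.length_map, hc]
    · intro s
      have := Pool.Agent.H891R2.SI.S2.S2 O hO S s
      omega
  choose L hL using h
  exact ⟨L, hO, hc, hL⟩

theorem main (k c s : ℕ) (hk : 0 < k) : ∃ F : Finset ℤ[T;T⁻¹],
    F.card ≤ (c + k + 1) ^ (2 ^ (k + c)) * (3 ^ k * (3 * c + 6 * k + 2 * s + 1) + 1) ^ k ∧
    ∀ O : Sites k, O.Connected → O.crossings.length = c →
      ∀ (w : Fin k → ℤ) (D : Diagram (O.P ⊕ Ribbon.Pt w)), Orients D (O.fill w) → FSpanLE s D →
        ∃ g ∈ F, ∃ u, IsPow u ∧ D.fPoly = u * g := by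
  classical
  have key : ∀ L : Finset (Fin k) → (Fin c → Bool) → Fin (c + k + 1), ∃ G : Finset ℤ[T;T⁻¹],
      G.card ≤ (3 ^ k * (3 * c + 6 * k + 2 * s + 1) + 1) ^ k ∧
      ∀ O : Sites k, HasType L O → ∀ w, Small O s w →
        ∃ g ∈ G, ∃ u, IsPow u ∧ (O.fill w).std.bracket = u * g := by
    intro L
    by_cases h : ∃ O : Sites k, HasType L O
    · obtain ⟨O0, h0⟩ := h
      obtain ⟨W, hW, hWs, hall⟩ := structure_thm O0 hk h0.1 s
      rw [h0.2.1] at hW
      refine ⟨W.image (fun w => (O0.fill w).std.bracket), Finset.card_image_le.trans hW, ?_⟩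
      intro O hO w hw
      have e := fill_eq O O0 hk (fun S => by rw [hO.2.2 S, h0.2.2 S]) w
      have hs : Small O0 s w := by
        obtain ⟨lo, hlo⟩ := small_bracket O hk s w hw
        rw [e] at hlo
        exact small_of_bracket O0 hk s w lo hlo
      obtain ⟨w', hw', hc⟩ := (hall w).1 hs
      obtain ⟨u, hu, h1⟩ := rigid_coset O0 hk h0.1 s w' w (hWs w' hw') hc
      exact ⟨_, Finset.mem_image_of_mem _ hw', u, hu, by rw [e, h1]⟩
    · exact ⟨∅, by simp, fun O hO => absurd ⟨O, hO⟩ h⟩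
  choose G hG1 hG2 using key
  refine ⟨Finset.univ.biUnion G, ?_, ?_⟩
  · refine (Finset.card_biUnion_le_card_mul Finset.univ G _ (fun L _ => hG1 L)).trans ?_
    refine Nat.mul_le_mul_right _ (le_of_eq ?_)
    rw [Finset.card_univ, Fintype.card_fun, Fintype.card_fun, Fintype.card_fin, Fintype.card_finset,
      Fintype.card_fun, Fintype.card_bool, Fintype.card_fin, Fintype.card_fin, ← pow_mul, ← pow_add,
      add_comm c k]
  · intro O hO hc w D hD hs
    obtain ⟨L, hL⟩ := exists_type O hO c hc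
    obtain ⟨g, hg, u, hu, h1⟩ := hG2 L O hL w ⟨D, hD, hs⟩
    have n1 : Nonempty (O.P ⊕ Ribbon.Pt w) := ⟨.inl (O.corner ⟨0, hk⟩ false false)⟩
    obtain ⟨u1, hu1, h2⟩ := fPoly_pow D
    refine ⟨g, Finset.mem_biUnion.2 ⟨L, Finset.mem_univ _, hg⟩, u1 * u, hu1.mul hu, ?_⟩
    rw [h2, T6.bracket_orients D _ hD, h1, mul_assoc]

end Pool.Agent.Y463.BS
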