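import Pool.Agent.Y463.BS.Sign
import Pool.Agent.Y463.BS.Main

/-!
# Knots: the unit is determined
-/

set_option autoImplicit false

namespace Pool.Agent.Y463.BS

open Finset LaurentPolynomial Pool.Agent.H891R2.Jones Pool.Agent.H891R2.MT Pool.Agent.H891R2.SI
open Pool.Agent.H832R3.VJ
open Pool.Agent.H891R2.ZO (IsPow)
open Pool.Agent.H832R3.TW (FSpanLE)
open Pool.Agent.H832R3.VJ.V7 (moment_term moment_C_mul)
open Pool.Agent.H953R3.Q2 (m_sum m_one T_mul0 T_mul1 mul0 mul1)

variable {P : Type}

/-- `p` and `q` are joined by a piece of strand: an arc, or the under- or over-strand of a crossing -/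
def Strand (D : Diagram P) (p q : P) : Prop :=
  (p, q) ∈ D.arcs ∨ ∃ x ∈ D.crossings, (p = x.a ∧ q = x.c) ∨ (p = x.b ∧ q = x.d)

/-- the closed oriented diagram `D` has one component: it is a diagram of a knot -/
def IsKnot [DecidableEq P] (D : Diagram P) : Prop := D.IsClosed ∧ Nat.card (Quot (Strand D)) = 1

theorem mem_X (xs : List (Crossing P)) (p q : P) : (p, q) ∈ X xs ↔
    ∃ x ∈ xs, (p = x.a ∧ q = x.c) ∨ (p = x.b ∧ q = x.d) := by
  unfold X
  rw [List.mem_flatMap]
  constructor
  · rintro ⟨x, hx, h⟩
    refine ⟨x, hx, ?_⟩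
    simpa only [List.mem_cons, List.not_mem_nil, or_false, Prod.mk.injEq] using h
  · rintro ⟨x, hx, h⟩
    refine ⟨x, hx, ?_⟩
    simpa only [List.mem_cons, List.not_mem_nil, or_false, Prod.mk.injEq] using h

theorem card_strand (D : Diagram P) : Nat.card (Quot (Strand D)) = lp (X D.crossings ++ D.arcs) := by
  refine card_lp fun p q => ?_
  unfold Strand
  rw [List.mem_append, mem_X, or_comm]

theorem count_starts [DecidableEq P] (xs : List (Crossing P)) (p : P) : 
    ((SX xs).map Prod.fst).count p = (xs.map (fun x => if x.underFwd then x.a else x.c)).count p + 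
      (xs.map (fun x => if x.overFwd then x.b else x.d)).count p ∧ 
    ((SX xs).map Prod.snd).count p = (xs.map (fun x => if x.underFwd then x.c else x.a)).count p + 
      (xs.map (fun x => if x.overFwd then x.d else x.b)).count p ∧ 
    (xs.flatMap cor).count p = ((SX xs).map Prod.fst).count p + ((SX xs).map Prod.snd).count p := by
  induction xs with
  | nil => simp [SX]
  | cons x xs ih =>
    obtain ⟨h1, h2, h3⟩ := ih
    have e1 : (su x).1 = (if x.underFwd then x.a else x.c) := by unfold su; split_ifs <;> rfl
    have e2 : (so x).1 = (if x.overFwd then x.b else x.d) := by unfold so; split_ifs <;> rfl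
    have e3 : (su x).2 = (if x.underFwd then x.c else x.a) := by unfold su; split_ifs <;> rfl
    have e4 : (so x).2 = (if x.overFwd then x.d else x.b) := by unfold so; split_ifs <;> rfl
    have f1 : ((SX (x :: xs)).map Prod.fst).count p = 
        [(if x.underFwd then x.a else x.c)].count p + [(if x.overFwd then x.b else x.d)].count p + 
          ((SX xs).map Prod.fst).count p := by
      simp only [SX, List.flatMap_cons, List.map_append, List.map_cons, List.map_nil, 
        List.count_append, List.count_cons, List.count_nil, e1, e2]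
      omega
    have f2 : ((SX (x :: xs)).map Prod.snd).count p = 
        [(if x.underFwd then x.c else x.a)].count p + [(if x.overFwd then x.d else x.b)].count p + 
          ((SX xs).map Prod.snd).count p := by
      simp only [SX, List.flatMap_cons, List.map_append, List.map_cons, List.map_nil, 
        List.count_append, List.count_cons, List.count_nil, e3, e4]
      omega
    refine ⟨?_, ?_, ?_⟩
    · rw [f1, h1, List.map_cons, List.map_cons, List.count_cons, List.count_cons, List.count_cons, 
        List.count_cons, List.count_nil]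
      omega
    · rw [f2, h2, List.map_cons, List.map_cons, List.count_cons, List.count_cons, List.count_cons, 
        List.count_cons, List.count_nil]
      omega
    · rw [f1, f2, List.flatMap_cons, List.count_append, h3]
      cases x.underFwd <;> cases x.overFwd <;> 
        simp only [cor, List.count_cons, List.count_nil, if_true, if_false, Bool.false_eq_true] <;> omega

theorem sign_parity (xs : List (Crossing P)) : (2 : ℤ) ∣ (xs.map Crossing.sign).sum - xs.length := by
  induction xs with
  | nil => simp
  | cons x xs ih =>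
    obtain ⟨t, ht⟩ := ih
    rw [List.map_cons, List.sum_cons, List.length_cons]
    unfold Crossing.sign at ht ⊢
    split_ifs
    · exact ⟨t - 1, by push_cast; linarith⟩
    · exact ⟨t, by push_cast; linarith⟩

/-- **the normalised bracket of a knot**: the value at `A = 1` is `1`, the derivative is `0` -/
theorem knot_moments [Finite P] [DecidableEq P] [Nonempty P] (D : Diagram P) (h : IsKnot D) :
    moment 0 D.fPoly = 1 ∧ moment 1 D.fPoly = 0 := by
  obtain ⟨hc, h1⟩ := h
  rw [card_strand] at h1
  have h2 : Two (al D.arcs D.crossings) := by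
    intro p
    right
    have h3 := hc p
    obtain ⟨g1, g2, g3⟩ := count_starts D.crossings p
    unfold Diagram.starts Diagram.ends at h3
    simp only [List.count_append] at h3
    simp only [al, pts, List.count_append]
    omega
  have h3 : S D.arcs D.crossings = 6 * D.writhe := by
    refine S_sign D.crossings D.arcs D.arcs (fun _ _ => Iff.rfl) (fun p => ?_) h2 h1
    have h3 := hc p
    obtain ⟨g1, g2, g3⟩ := count_starts D.crossings p
    unfold Diagram.starts Diagram.ends at h3
    simp only [List.count_append] at h3 ⊢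
    omega
  obtain ⟨b0, b1⟩ := m_bracket D
  rw [W_eq _ _ h2] at b0
  rw [W1_eq _ _ h2, h3] at b1
  unfold v at b0
  rw [h1, pow_one] at b0
  rw [pow_succ] at b1
  obtain ⟨t, ht⟩ := sign_parity D.crossings
  have hw : D.writhe = 2 * t + D.crossings.length := by
    unfold Diagram.writhe
    linarith
  set ε : ℤ := (-1) ^ D.crossings.length with hε
  have c0 : moment 0 D.bracket = ε := by linarith
  have c1 : moment 1 D.bracket = 3 * D.writhe * ε := by linarith
  have hf : D.fPoly = C ε * (T (-3 * D.writhe) * D.bracket) := by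
    unfold Diagram.fPoly
    by_cases he : Even D.writhe
    · have he' : Even D.crossings.length := by
        obtain ⟨r, hr⟩ := he
        rw [← Int.even_coe_nat]
        exact ⟨r - t, by linarith⟩
      rw [if_pos he, hε, he'.neg_one_pow, map_one, one_mul, one_mul]
    · have he' : Odd D.crossings.length := by
        by_contra hno
        rw [Nat.not_odd_iff_even] at hno
        obtain ⟨r, hr⟩ := hno
        exact he ⟨t + r, by rw [hw, hr]; push_cast; ring⟩
      rw [if_neg he, hε, he'.neg_one_pow, map_neg, map_one]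
      ring
  have hee : ε * ε = 1 := by
    rw [hε, ← pow_add, ← two_mul, pow_mul]
    norm_num
  constructor
  · rw [hf, moment_C_mul, T_mul0, c0, hee]
  · rw [hf, moment_C_mul, T_mul1, c0, c1]
    ring

theorem unit_fixed (f g u : ℤ[T;T⁻¹]) (hu : IsPow u) (h : f = u * g) (f0 : moment 0 f = 1) 
    (f1 : moment 1 f = 0) (g0 : moment 0 g = 1) (g1 : moment 1 g = 0) : f = g := by
  obtain ⟨n, rfl | rfl⟩ := hu
  · rw [h, T_mul1, g0, g1] at f1
    have : n = 0 := by linarith
    rw [h, this, T_zero, one_mul]
  · exfalso
    have e : -T n * g = C (-1) * (T n * g) := by rw [map_neg, map_one]; ring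
    rw [h, e, moment_C_mul, T_mul0, g0] at f0
    norm_num at f0

/-- finitely many Jones polynomials of knots -/
theorem main_knot (k c s : ℕ) (hk : 0 < k) : ∃ F : Finset ℤ[T;T⁻¹],
    F.card ≤ (c + k + 1) ^ (2 ^ (k + c)) * (3 ^ k * (3 * c + 6 * k + 2 * s + 1) + 1) ^ k ∧
    ∀ O : Sites k, O.Connected → O.crossings.length = c →
      ∀ (w : Fin k → ℤ) (D : Diagram (O.P ⊕ Ribbon.Pt w)), Orients D (O.fill w) → IsKnot D → 
        FSpanLE s D → D.fPoly ∈ F := by
  classical
  obtain ⟨F, hF, h⟩ := main k c s hk
  have hch : ∀ g : ℤ[T;T⁻¹], ∃ f : ℤ[T;T⁻¹], 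
      (∃ f u, IsPow u ∧ f = u * g ∧ moment 0 f = 1 ∧ moment 1 f = 0) → 
        ∃ u, IsPow u ∧ f = u * g ∧ moment 0 f = 1 ∧ moment 1 f = 0 := by
    intro g
    by_cases h : ∃ f u, IsPow u ∧ f = u * g ∧ moment 0 f = 1 ∧ moment 1 f = 0
    · obtain ⟨f, hf⟩ := h
      exact ⟨f, fun _ => hf⟩
    · exact ⟨0, fun h' => absurd h' h⟩
  choose r hr using hch
  refine ⟨F.image r, Finset.card_image_le.trans hF, ?_⟩
  intro O hO hc w D hD hK hs
  have n1 : Nonempty (O.P ⊕ Ribbon.Pt w) := ⟨.inl (O.corner ⟨0, hk⟩ false false)⟩
  obtain ⟨g, hg, u, hu, h1⟩ := h O hO hc w D hD hs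
  obtain ⟨m0, m1⟩ := knot_moments D hK
  obtain ⟨u', hu', h2, m0', m1'⟩ := hr g ⟨_, u, hu, h1, m0, m1⟩
  obtain ⟨z, hz, hz'⟩ := hu.inv
  refine Finset.mem_image.2 ⟨g, hg, ?_⟩
  refine unit_fixed _ _ (u' * z) (hu'.mul hz) ?_ m0' m1' m0 m1
  calc r g = u' * ((z * u) * g) := by rw [hz', one_mul]; exact h2
    _ = u' * z * D.fPoly := by rw [h1]; ring

end Pool.Agent.Y463.BS
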