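import Mathlib

/-!
# Pairings: closed curves after the removal of a crossing
-/

set_option autoImplicit false

namespace Pool.Agent.Y463.BS

variable {P : Type}

/-- the equivalence relation generated by a list of pairs -/
def E (L : List (P × P)) : P → P → Prop := Relation.EqvGen (fun p q => (p, q) ∈ L)

theorem E.refl (L : List (P × P)) (x : P) : E L x x := Relation.EqvGen.refl x
theorem E.symm {L : List (P × P)} {x y : P} (h : E L x y) : E L y x := Relation.EqvGen.symm _ _ h
theorem E.trans {L : List (P × P)} {x y z : P} (h : E L x y) (h' : E L y z) : E L x z :=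
  Relation.EqvGen.trans _ _ _ h h'

theorem E.of_mem {L : List (P × P)} {x y : P} (h : (x, y) ∈ L) : E L x y := Relation.EqvGen.rel _ _ h

theorem E.lift {Q : Type} {L : List (P × P)} {M : List (Q × Q)} (f : P → Q)
    (h : ∀ p q, (p, q) ∈ L → E M (f p) (f q)) {x y : P} (hxy : E L x y) : E M (f x) (f y) := by
  induction hxy with
  | rel x y h0 => exact h x y h0
  | refl x => exact E.refl _ _
  | symm x y _ ih => exact ih.symm
  | trans x y z _ _ h1 h2 => exact h1.trans h2

theorem E.mono {L M : List (P × P)} (h : ∀ p q, (p, q) ∈ L → E M p q) {x y : P} (hxy : E L x y) :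
    E M x y := E.lift id h hxy

/-- all endpoints -/
def pts (L : List (P × P)) : List P := L.map Prod.fst ++ L.map Prod.snd

/-- the three possible pairings of four points -/
def Concl (L : List (P × P)) (a b c d : P) : Prop :=
  (E L a b ∧ E L c d ∧ ¬ E L a c) ∨ (E L a c ∧ E L b d ∧ ¬ E L a b) ∨
    (E L a d ∧ E L b c ∧ ¬ E L a b)

theorem E_nil {x y : P} : E ([] : List (P × P)) x y ↔ x = y := by
  constructor
  · intro h
    induction h with
    | rel x y h0 => exact absurd h0 (by simp)
    | refl x => rfl
    | symm x y _ ih => exact ih.symm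
    | trans x y z _ _ h1 h2 => exact h1.trans h2
  · rintro rfl
    exact E.refl _ _

theorem count_map_if [DecidableEq P] (p q : P) (hpq : p ≠ q) (l : List P) (x : P) :
    (l.map (fun y => if y = q then p else y)).count x =
      if x = q then 0 else if x = p then l.count p + l.count q else l.count x := by
  induction l with
  | nil => simp
  | cons y l ih =>
    rw [List.map_cons, List.count_cons, ih]
    simp only [List.count_cons, beq_iff_eq]
    grind

theorem pair [DecidableEq P] : ∀ (n : ℕ) (L : List (P × P)), L.length = n → ∀ a b c d : P,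
    (∀ x, (pts L ++ [a, b, c, d]).count x = 0 ∨ (pts L ++ [a, b, c, d]).count x = 2) →
    Concl L a b c d := by
  intro n
  induction n with
  | zero =>
    intro L hL a b c d h
    have : L = [] := List.length_eq_zero_iff.1 hL
    subst this
    have ha := h a
    have hb := h b
    have hc := h c
    have hd := h d
    unfold Concl
    simp only [E_nil]
    simp only [pts, List.map_nil, List.nil_append, List.count_cons, List.count_nil, beq_iff_eq] at ha hb hc hd
    clear h hL
    grind
  | succ n ih =>
    intro L hL a b c d h
    obtain ⟨⟨p, q⟩, L, rfl⟩ : ∃ z L', L = z :: L' := by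
      cases L with
      | nil => simp at hL
      | cons z L' => exact ⟨z, L', rfl⟩
    have hL' : L.length = n := by simpa using hL
    have hcnt : ∀ x, (pts ((p, q) :: L) ++ [a, b, c, d]).count x =
        (pts L ++ [a, b, c, d]).count x + (if p = x then 1 else 0) + (if q = x then 1 else 0) := by
      intro x
      simp only [pts, List.map_cons, List.count_append, List.cons_append, List.count_cons, beq_iff_eq]
      ring
    by_cases hpq : p = q
    · subst hpq
      have h0 : ∀ x, (pts L ++ [a, b, c, d]).count x = 0 ∨ (pts L ++ [a, b, c, d]).count x = 2 := by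
        intro x
        have h1 := h x
        have h2 := hcnt x
        by_cases hx : p = x
        · rw [if_pos hx] at h2
          omega
        · rw [if_neg hx] at h2
          omega
      have e : ∀ x y, E ((p, p) :: L) x y ↔ E L x y := by
        intro x y
        constructor
        · refine E.mono ?_
          intro u v huv
          rcases List.mem_cons.1 huv with h1 | h1
          · obtain ⟨rfl, rfl⟩ := Prod.mk.inj h1
            exact E.refl _ _
          · exact E.of_mem h1
        · exact E.mono (fun u v huv => E.of_mem (List.mem_cons_of_mem _ huv))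
      have := ih L hL' a b c d h0
      unfold Concl at this ⊢
      simpa only [e] using this
    · let f : P → P := fun y => if y = q then p else y
      have hmap : pts (L.map (Prod.map f f)) ++ [f a, f b, f c, f d] =
          (pts L ++ [a, b, c, d]).map f := by
        simp [pts, List.map_map, Function.comp_def]
      have h0 : ∀ x, (pts (L.map (Prod.map f f)) ++ [f a, f b, f c, f d]).count x = 0 ∨
          (pts (L.map (Prod.map f f)) ++ [f a, f b, f c, f d]).count x = 2 := by
        intro x
        rw [hmap, count_map_if p q hpq]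
        have hp := h p
        have hq := h q
        have hx := h x
        rw [hcnt] at hp hq hx
        simp only [hpq, Ne.symm hpq, if_true, if_false, add_zero] at hp hq
        split_ifs with h1 h2
        · left; rfl
        · right; omega
        · rw [if_neg (fun h => h2 h.symm), if_neg (fun h => h1 h.symm)] at hx
          simpa using hx
      have hf : ∀ x, E ((p, q) :: L) x (f x) := by
        intro x
        by_cases hx : x = q
        · subst hx
          show E _ x (if x = x then p else x)
          rw [if_pos rfl]
          exact (E.of_mem (by simp)).symm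
        · show E _ x (if x = q then p else x)
          rw [if_neg hx]
          exact E.refl _ _
      have e : ∀ x y, E (L.map (Prod.map f f)) (f x) (f y) ↔ E ((p, q) :: L) x y := by
        intro x y
        constructor
        · intro h1
          have h2 : E ((p, q) :: L) (f x) (f y) := by
            refine E.mono ?_ h1
            intro u v huv
            obtain ⟨⟨u', v'⟩, h3, h4⟩ := List.mem_map.1 huv
            obtain ⟨rfl, rfl⟩ := Prod.mk.inj h4
            exact (hf u').symm.trans ((E.of_mem (List.mem_cons_of_mem _ h3)).trans (hf v'))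
          exact (hf x).trans (h2.trans (hf y).symm)
        · refine E.lift f ?_
          intro u v huv
          rcases List.mem_cons.1 huv with h1 | h1
          · obtain ⟨rfl, rfl⟩ := Prod.mk.inj h1
            have e1 : f u = u := if_neg hpq
            have e2 : f v = u := if_pos rfl
            rw [e1, e2]
            exact E.refl _ _
          · exact E.of_mem (List.mem_map.2 ⟨(u, v), h1, rfl⟩)
      have := ih (L.map (Prod.map f f)) (by simpa using hL') (f a) (f b) (f c) (f d) h0
      unfold Concl at this ⊢
      simpa only [e] using this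

/-! ### the number of curves -/

/-- the number of classes -/
noncomputable def lp (L : List (P × P)) : ℕ := Nat.card (Quot (E L))

theorem lp_congr {L M : List (P × P)} (h : ∀ x y, E L x y ↔ E M x y) : lp L = lp M := by
  unfold lp
  have : E L = E M := by
    funext x y
    exact propext (h x y)
  rw [this]

theorem lp_mem {L M : List (P × P)} (h : ∀ z, z ∈ L ↔ z ∈ M) : lp L = lp M := by
  refine lp_congr fun x y => ⟨E.mono fun p q hpq => E.of_mem ((h _).1 hpq),
    E.mono fun p q hpq => E.of_mem ((h _).2 hpq)⟩

theorem quot_E {L : List (P × P)} {x y : P} : Quot.mk (E L) x = Quot.mk (E L) y ↔ E L x y := by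
  constructor
  · intro h
    have h1 := Quot.eqvGen_exact h
    induction h1 with
    | rel x y h0 => exact h0
    | refl x => exact E.refl _ _
    | symm x y _ ih => exact (ih (Quot.eqvGen_sound (by assumption))).symm
    | trans x y z h1 h2 ih1 ih2 =>
      exact (ih1 (Quot.eqvGen_sound h1)).trans (ih2 (Quot.eqvGen_sound h2))
  · intro h
    exact Quot.sound h

/-- a pair which is already connected -/
theorem lp_same {L : List (P × P)} {a b : P} (h : E L a b) : lp ((a, b) :: L) = lp L := by
  refine lp_congr fun x y => ⟨E.mono ?_, E.mono fun p q hpq => E.of_mem (List.mem_cons_of_mem _ hpq)⟩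
  intro p q hpq
  rcases List.mem_cons.1 hpq with h1 | h1
  · obtain ⟨rfl, rfl⟩ := Prod.mk.inj h1
    exact h
  · exact E.of_mem h1

theorem E_cons {L : List (P × P)} {a b x y : P} : E ((a, b) :: L) x y ↔
    E L x y ∨ (E L x a ∧ E L b y) ∨ (E L x b ∧ E L a y) := by
  constructor
  · intro h
    induction h with
    | rel x y h0 =>
      rcases List.mem_cons.1 h0 with h1 | h1
      · obtain ⟨rfl, rfl⟩ := Prod.mk.inj h1
        exact Or.inr (Or.inl ⟨E.refl _ _, E.refl _ _⟩)
      · exact Or.inl (E.of_mem h1)
    | refl x => exact Or.inl (E.refl _ _)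
    | symm x y _ ih =>
      rcases ih with h | ⟨h, h'⟩ | ⟨h, h'⟩
      · exact Or.inl h.symm
      · exact Or.inr (Or.inr ⟨h'.symm, h.symm⟩)
      · exact Or.inr (Or.inl ⟨h'.symm, h.symm⟩)
    | trans x y z _ _ h1 h2 =>
      rcases h1 with h | ⟨h, h'⟩ | ⟨h, h'⟩ <;> rcases h2 with g | ⟨g, g'⟩ | ⟨g, g'⟩
      · exact Or.inl (h.trans g)
      · exact Or.inr (Or.inl ⟨h.trans g, g'⟩)
      · exact Or.inr (Or.inr ⟨h.trans g, g'⟩)
      · exact Or.inr (Or.inl ⟨h, h'.trans g⟩)
      · exact Or.inr (Or.inl ⟨h, g'⟩)
      · exact Or.inl (h.trans g')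
      · exact Or.inr (Or.inr ⟨h, h'.trans g⟩)
      · exact Or.inl (h.trans g')
      · exact Or.inr (Or.inr ⟨h, g'⟩)
  · intro h
    have m : ∀ {u v}, E L u v → E ((a, b) :: L) u v :=
      fun h => E.mono (fun p q hpq => E.of_mem (List.mem_cons_of_mem _ hpq)) h
    have hab : E ((a, b) :: L) a b := E.of_mem (by simp)
    rcases h with h | ⟨h, h'⟩ | ⟨h, h'⟩
    · exact m h
    · exact (m h).trans (hab.trans (m h'))
    · exact (m h).trans (hab.symm.trans (m h'))

/-- a pair which joins two classes -/
theorem lp_join [Finite P] {L : List (P × P)} {a b : P} (h : ¬ E L a b) :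
    lp ((a, b) :: L) + 1 = lp L := by
  classical
  unfold lp
  let f : Quot (E L) → Option (Quot (E ((a, b) :: L))) := 
    Quot.lift (fun x => if E L x b then none else some (Quot.mk _ x)) (by
      intro x y hxy
      have hiff : E L x b ↔ E L y b := ⟨fun h => hxy.symm.trans h, fun h => hxy.trans h⟩
      by_cases hx : E L x b
      · rw [if_pos hx, if_pos (hiff.1 hx)]
      · rw [if_neg hx, if_neg (fun h => hx (hiff.2 h))]
        exact congrArg some (Quot.sound (E_cons.2 (Or.inl hxy))))
  have hf : Function.Bijective f := by
    constructor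
    · intro x y
      induction x using Quot.ind with
      | mk x =>
        induction y using Quot.ind with
        | mk y =>
          intro hxy
          change (if E L x b then none else some (Quot.mk (E ((a, b) :: L)) x)) =
            (if E L y b then none else some (Quot.mk (E ((a, b) :: L)) y)) at hxy
          apply Quot.sound
          by_cases hx : E L x b <;> by_cases hy : E L y b
          · exact hx.trans hy.symm
          · rw [if_pos hx, if_neg hy] at hxy; exact absurd hxy (by simp)
          · rw [if_neg hx, if_pos hy] at hxy; exact absurd hxy (by simp)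
          · rw [if_neg hx, if_neg hy] at hxy
            have h1 := quot_E.1 (Option.some.inj hxy)
            rcases E_cons.1 h1 with h2 | ⟨h2, h3⟩ | ⟨h2, h3⟩
            · exact h2
            · exact absurd h3.symm hy
            · exact absurd h2 hx
    · intro z
      rcases z with _ | z
      · exact ⟨Quot.mk _ b, if_pos (E.refl _ _)⟩
      · induction z using Quot.ind with
        | mk x =>
          by_cases hx : E L x b
          · refine ⟨Quot.mk _ a, ?_⟩
            show (if E L a b then none else some (Quot.mk (E ((a, b) :: L)) a)) = _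
            rw [if_neg h]
            refine congrArg some (Quot.sound (E_cons.2 (Or.inr (Or.inl ⟨E.refl _ _, hx.symm⟩))))
          · exact ⟨Quot.mk _ x, if_neg hx⟩
  have h1 := Nat.card_eq_of_bijective f hf
  rw [h1, Finite.card_option]

/-- the state value -/
noncomputable def v (L : List (P × P)) : ℤ := (-2) ^ lp L

theorem three [Finite P] [DecidableEq P] (L : List (P × P)) (a b c d : P) (h : Concl L a b c d) :
    (E L a b ∧ E L c d ∧ lp ((a, b) :: (c, d) :: L) = lp L ∧ lp ((b, c) :: (d, a) :: L) + 1 = lp L ∧
      lp ((a, c) :: (b, d) :: L) + 1 = lp L ∧ ¬ E L a c) ∨ 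
    (lp ((a, b) :: (c, d) :: L) + 1 = lp L ∧ lp ((b, c) :: (d, a) :: L) + 1 = lp L ∧
      lp ((a, c) :: (b, d) :: L) = lp L) ∨ 
    (E L a d ∧ E L b c ∧ lp ((a, b) :: (c, d) :: L) + 1 = lp L ∧ lp ((b, c) :: (d, a) :: L) = lp L ∧
      lp ((a, c) :: (b, d) :: L) + 1 = lp L ∧ ¬ E L a b) := by
  have m : ∀ {z : P × P} {u w}, E L u w → E (z :: L) u w :=
      fun h => E.mono (fun p q hpq => E.of_mem (List.mem_cons_of_mem _ hpq)) h
  rcases h with ⟨h1, h2, h3⟩ | ⟨h1, h2, h3⟩ | ⟨h1, h2, h3⟩
  · left
    have hda : ¬ E L d a := fun h => h3 (h2.trans h).symm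
    have hbd : ¬ E L b d := fun h => h3 (h1.trans (h.trans h2.symm))
    refine ⟨h1, h2, ?_, ?_, ?_, h3⟩
    · rw [lp_same (m h1), lp_same h2]
    · rw [lp_same, lp_join hda]
      exact (m h1.symm).trans ((E.of_mem (by simp)).symm.trans (m h2.symm))
    · rw [lp_same, lp_join hbd]
      exact (m h1).trans ((E.of_mem (by simp)).trans (m h2.symm))
  · right; left
    have hcd : ¬ E L c d := fun h => h3 (h1.trans (h.trans h2.symm))
    have hda : ¬ E L d a := fun h => h3 (h2.trans h).symm
    refine ⟨?_, ?_, ?_⟩
    · rw [lp_same, lp_join hcd]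
      exact (m h1).trans ((E.of_mem (by simp)).trans (m h2.symm))
    · rw [lp_same, lp_join hda]
      exact (m h2).trans ((E.of_mem (by simp)).trans (m h1))
    · rw [lp_same (m h1), lp_same h2]
  · right; right
    have hcd : ¬ E L c d := fun h => h3 (h1.trans (h2.trans h).symm)
    have hbd : ¬ E L b d := fun h => h3 (h1.trans h.symm)
    refine ⟨h1, h2, ?_, ?_, ?_, h3⟩
    · rw [lp_same, lp_join hcd]
      exact (m h1).trans ((E.of_mem (by simp)).symm.trans (m h2.symm))
    · rw [lp_same (m h2), lp_same h1.symm]
    · rw [lp_same, lp_join hbd]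
      exact (m h1).trans ((E.of_mem (by simp)).symm.trans (m h2))

/-- the relation of the three pairings -/
theorem brauer [Finite P] [DecidableEq P] (L : List (P × P)) (a b c d : P)
    (h : Concl L a b c d) :
    v ((a, b) :: (c, d) :: L) + v ((b, c) :: (d, a) :: L) + v ((a, c) :: (b, d) :: L) = 0 := by
  have key : ∀ n m : ℕ, n + 1 = m → (-2 : ℤ) ^ m + (-2) ^ n + (-2) ^ n = 0 := by
    rintro n _ rfl
    rw [pow_succ]; ring
  unfold v
  rcases three L a b c d h with ⟨-, -, h1, h2, h3, -⟩ | ⟨h1, h2, h3⟩ | ⟨-, -, h1, h2, h3, -⟩
  · have e : lp ((b, c) :: (d, a) :: L) = lp ((a, c) :: (b, d) :: L) := by omega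
    rw [h1, e]; exact key _ _ h3
  · have e : lp ((a, b) :: (c, d) :: L) = lp ((b, c) :: (d, a) :: L) := by omega
    rw [h3, e, add_comm]
    have := key _ _ h2
    linarith
  · have e : lp ((a, b) :: (c, d) :: L) = lp ((a, c) :: (b, d) :: L) := by omega
    rw [h2, e]
    have := key _ _ h3
    linarith

end Pool.Agent.Y463.BS
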