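import Pool.Agent.Y463.BS.Fin

/-!
# Knots: the oriented smoothing has two curves
-/

set_option autoImplicit false

namespace Pool.Agent.Y463.BS

open Finset LaurentPolynomial Pool.Agent.H891R2.Jones Pool.Agent.H832R3.VJ
open Pool.Agent.H832R3.VJ.V7 (moment_term moment_C_mul)
open Pool.Agent.H953R3.Q2 (m_sum m_one T_mul0 T_mul1 mul0 mul1)

variable {P : Type}

/-- the oriented under-strand and over-strand -/
def su (x : Crossing P) : P × P := if x.underFwd then (x.a, x.c) else (x.c, x.a)
def so (x : Crossing P) : P × P := if x.overFwd then (x.b, x.d) else (x.d, x.b)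

theorem countP_eq (O : List (P × P)) (C : P → Bool) (h : ∀ z ∈ O, C z.1 = C z.2) :
    (O.map Prod.fst).countP C = (O.map Prod.snd).countP C := by
  induction O with
  | nil => rfl
  | cons z O ih =>
    rw [List.map_cons, List.map_cons, List.countP_cons, List.countP_cons,
      ih (fun z hz => h z (List.mem_cons_of_mem _ hz)), h z (by simp)]

/-- the entering ends are joined with the leaving ends -/
theorem noins [DecidableEq P] (O : List (P × P)) (i1 i2 o1 o2 : P)
    (h : ∀ p, (O.map Prod.fst ++ [i1, i2]).count p = (O.map Prod.snd ++ [o1, o2]).count p)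
    (h1 : E O i1 i2) (h2 : ¬ E O i1 o1) (h3 : ¬ E O i1 o2) : False := by
  classical
  have hp : (O.map Prod.fst ++ [i1, i2]).Perm (O.map Prod.snd ++ [o1, o2]) := List.perm_iff_count.2 h
  have h4 := hp.countP_eq (fun p => decide (E O i1 p))
  have h5 := countP_eq O (fun p => decide (E O i1 p)) (fun z hz => by
    have hz' : E O z.1 z.2 := E.of_mem hz
    by_cases h6 : E O i1 z.1
    · simp [h6, h6.trans hz']
    · have h7 : ¬ E O i1 z.2 := fun h => h6 (h.trans hz'.symm)
      simp [h6, h7])
  rw [List.countP_append, List.countP_append, h5] at h4
  have e1 : [i1, i2].countP (fun p => decide (E O i1 p)) = 2 := by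
    simp [List.countP_cons, h1, E.refl]
  have e2 : [o1, o2].countP (fun p => decide (E O i1 p)) = 0 := by
    simp [List.countP_cons, h2, h3]
  omega

/-- starts and ends of the crossings -/
def SX (xs : List (Crossing P)) : List (P × P) := xs.flatMap (fun x => [su x, so x])

theorem E_append {A O L M : List (P × P)} (h : ∀ x y, E A x y ↔ E O x y) 
    (h' : ∀ x y, E L x y ↔ E M x y) (x y : P) : E (L ++ A) x y ↔ E (M ++ O) x y := by
  have m1 : ∀ {A L : List (P × P)} {x y}, E A x y → E (L ++ A) x y :=
    fun h => E.mono (fun p q hpq => E.of_mem (List.mem_append_right _ hpq)) h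
  have m2 : ∀ {A L : List (P × P)} {x y}, E L x y → E (L ++ A) x y :=
    fun h => E.mono (fun p q hpq => E.of_mem (List.mem_append_left _ hpq)) h
  constructor
  · refine E.mono fun p q hpq => ?_
    rcases List.mem_append.1 hpq with h1 | h1
    · exact m2 ((h' _ _).1 (E.of_mem h1))
    · exact m1 ((h _ _).1 (E.of_mem h1))
  · refine E.mono fun p q hpq => ?_
    rcases List.mem_append.1 hpq with h1 | h1
    · exact m2 ((h' _ _).2 (E.of_mem h1))
    · exact m1 ((h _ _).2 (E.of_mem h1))

theorem E_pair (x : Crossing P) (p q : P) : E [(x.a, x.c), (x.b, x.d)] p q ↔ E [su x, so x] p q := by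
  have h1 : E [su x, so x] x.a x.c := by
    unfold su
    split_ifs
    · exact E.of_mem (by simp)
    · exact (E.of_mem (by simp)).symm
  have h2 : E [su x, so x] x.b x.d := by
    unfold so
    split_ifs
    · exact E.of_mem (by simp)
    · exact (E.of_mem (by simp)).symm
  have h3 : E [(x.a, x.c), (x.b, x.d)] (su x).1 (su x).2 := by
    unfold su
    split_ifs
    · exact E.of_mem (by simp)
    · exact (E.of_mem (by simp)).symm
  have h4 : E [(x.a, x.c), (x.b, x.d)] (so x).1 (so x).2 := by
    unfold so
    split_ifs
    · exact E.of_mem (by simp)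
    · exact (E.of_mem (by simp)).symm
  constructor
  · refine E.mono fun u w huw => ?_
    rcases List.mem_cons.1 huw with h | h
    · obtain ⟨rfl, rfl⟩ := Prod.mk.inj h
      exact h1
    · rw [List.mem_singleton] at h
      obtain ⟨rfl, rfl⟩ := Prod.mk.inj h
      exact h2
  · refine E.mono fun u w huw => ?_
    rcases List.mem_cons.1 huw with h | h
    · rw [← h] at h3
      exact h3
    · rw [List.mem_singleton] at h
      rw [← h] at h4
      exact h4

theorem E_SX (xs : List (Crossing P)) (p q : P) : E (X xs) p q ↔ E (SX xs) p q := by
  induction xs generalizing p q with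
  | nil => rfl
  | cons x xs ih =>
    have := E_append (A := X xs) (O := SX xs) (L := [(x.a, x.c), (x.b, x.d)]) (M := [su x, so x])
      ih (E_pair x) p q
    simpa only [X, SX, List.flatMap_cons] using this

theorem S_sign [Finite P] [DecidableEq P] [Nonempty P] (xs : List (Crossing P)) :
    ∀ A O : List (P × P), (∀ x y, E A x y ↔ E O x y) →
      (∀ p, (O.map Prod.fst ++ (SX xs).map Prod.fst).count p = 
        (O.map Prod.snd ++ (SX xs).map Prod.snd).count p) → 
      Two (al A xs) → lp (X xs ++ A) = 1 → S A xs = 6 * (xs.map Crossing.sign).sum := by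
  induction xs with
  | nil => intro A O _ _ _ _; simp [S]
  | cons x xs ih =>
    intro A O hAO hO h hl
    have hl' : lp ((x.a, x.c) :: (x.b, x.d) :: (X xs ++ A)) = 1 := by
      have : X (x :: xs) ++ A = (x.a, x.c) :: (x.b, x.d) :: (X xs ++ A) := by
        simp only [X, List.flatMap_cons, List.cons_append, List.nil_append]
      rw [← this]
      exact hl
    have c1 : Two (al ((x.a, x.c) :: (x.b, x.d) :: A) xs) := h.congr fun p => by
      simp only [al, List.flatMap_cons, List.count_append, count_pts_cons, cor, List.count_cons,
        List.count_nil]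
      omega
    have hAO' : ∀ p q, E ((x.a, x.c) :: (x.b, x.d) :: A) p q ↔ E (su x :: so x :: O) p q := 
      fun p q => E_append (A := A) (O := O) (L := [(x.a, x.c), (x.b, x.d)]) (M := [su x, so x]) 
        hAO (E_pair x) p q
    have hO' : ∀ p, ((su x :: so x :: O).map Prod.fst ++ (SX xs).map Prod.fst).count p = 
        ((su x :: so x :: O).map Prod.snd ++ (SX xs).map Prod.snd).count p := by
      intro p
      have := hO p
      simp only [SX, List.flatMap_cons, List.map_append, List.map_cons, List.map_nil, 
        List.count_append, List.count_cons, List.count_nil, List.cons_append, List.nil_append] at this ⊢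
      omega
    have hl2 : lp (X xs ++ (x.a, x.c) :: (x.b, x.d) :: A) = 1 := by
      rw [← hl']
      exact lp_mem fun z => by simp only [List.mem_append, List.mem_cons]; tauto
    rw [S, ih _ _ hAO' hO' c1 hl2, List.map_cons, List.sum_cons]
    -- the first term
    set L := X xs ++ A with hL
    have hconcl : Concl L x.a x.b x.c x.d := by
      refine pair _ _ rfl _ _ _ _ (h.congr fun p => ?_)
      rw [hL, List.count_append, count_pts_append, count_X]
      simp only [al, List.flatMap_cons, List.count_append, cor]
      omega
    have hE : ∀ p q, E L p q ↔ E (SX xs ++ O) p q := E_append hAO (E_SX xs)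
    have hcount : ∀ p, ((SX xs ++ O).map Prod.fst ++ [(su x).1, (so x).1]).count p =
        ((SX xs ++ O).map Prod.snd ++ [(su x).2, (so x).2]).count p := by
      intro p
      have := hO p
      simp only [SX, List.flatMap_cons, List.map_append, List.map_cons, List.map_nil, 
        List.count_append, List.count_cons, List.count_nil, List.cons_append, List.nil_append] at this ⊢
      omega
    have pos : ∀ M : List (P × P), 0 < lp M := by
      intro M
      unfold lp
      have : Nonempty (Quot (E M)) := ⟨Quot.mk _ (Classical.arbitrary P)⟩
      exact Nat.card_pos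
    have hterm : v ((x.a, x.b) :: (x.c, x.d) :: L) - v ((x.b, x.c) :: (x.d, x.a) :: L) = 
        6 * x.sign := by
      rcases three L _ _ _ _ hconcl with ⟨g1, g2, h1, h2, h3, g3⟩ | ⟨h1, h2, h3⟩ | 
        ⟨g1, g2, h1, h2, h3, g3⟩
      · have e1 : lp ((x.a, x.b) :: (x.c, x.d) :: L) = 2 := by omega
        have e2 : lp ((x.b, x.c) :: (x.d, x.a) :: L) = 1 := by omega
        have hs : x.sign = 1 := by
          unfold Crossing.sign
          rw [if_neg]
          intro hxy
          have g4 : ¬ E L x.a x.d := fun h => g3 (h.trans g2.symm)
          have g5 : ¬ E L x.c x.b := fun h => g3 (g1.trans h.symm)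
          simp only [hE] at g1 g2 g3 g4 g5
          cases hu : x.underFwd
          · have ho : x.overFwd = false := by rw [← hxy, hu]
            simp only [su, so, hu, ho, Bool.false_eq_true, if_false] at hcount
            exact noins _ _ _ _ _ hcount g2 (fun h => g3 h.symm) g5
          · have ho : x.overFwd = true := by rw [← hxy, hu]
            simp only [su, so, hu, ho, if_true] at hcount
            exact noins _ _ _ _ _ hcount g1 g3 g4
        unfold v
        rw [e1, e2, hs]
        norm_num
      · have := pos ((x.a, x.b) :: (x.c, x.d) :: L)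
        omega
      · have e1 : lp ((x.a, x.b) :: (x.c, x.d) :: L) = 1 := by omega
        have e2 : lp ((x.b, x.c) :: (x.d, x.a) :: L) = 2 := by omega
        have hs : x.sign = -1 := by
          unfold Crossing.sign
          rw [if_pos]
          by_contra hxy
          have g4 : ¬ E L x.a x.c := fun h => g3 (h.trans g2.symm)
          have g5 : ¬ E L x.c x.d := fun h => g4 (g1.trans h.symm)
          simp only [hE] at g1 g2 g3 g4 g5
          cases hu : x.underFwd
          · have ho : x.overFwd = true := by
              cases h0 : x.overFwd
              · exact absurd (hu.trans h0.symm) hxy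
              · rfl
            simp only [su, so, hu, ho, Bool.false_eq_true, if_false, if_true] at hcount
            exact noins _ _ _ _ _ hcount g2.symm (fun h => g4 h.symm) g5
          · have ho : x.overFwd = false := by
              cases h0 : x.overFwd
              · rfl
              · exact absurd (hu.trans h0.symm) hxy
            simp only [su, so, hu, ho, Bool.false_eq_true, if_false, if_true] at hcount
            exact noins _ _ _ _ _ hcount g1 g4 g3
        unfold v
        rw [e1, e2, hs]
        norm_num
    rw [hterm]
    ring

end Pool.Agent.Y463.BS
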